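import Pool.Agent.W361.LQ.Stm
import Pool.Agent.W764.LQ.CPT
import Pool.Agent.W168.LQ.Inj
import Pool.Agent.W395.LQ.Div
import Pool.Agent.W381.LQ.Non
import Pool.Agent.W654.LQ.Dense
import Pool.Agent.W585.LQ.NM

/-!
# A two-dimensional connected variant of the space `X S` of project LQ

`X2 S` is the subspace of `X S` of all points with at most one radius different from `1`.
-/

set_option autoImplicit false

open Filter Topology

namespace Pool.Agent.U64.FD

open BoundedContinuousFunction Pool.Agent.W361.LQ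

/-- The parameters belonging to `S` with at most one radius different from `1`. -/
def K2 (S : Set ℕ) : Set Pm := {a | a ∈ K S ∧ ∀ m n, m ≠ n → a.2.1 m = 1 ∨ a.2.1 n = 1}

/-- The space. -/
def X2 (S : Set ℕ) : Set (ℕ →ᵇ ℝ × ℝ × ℝ) := Phi '' K2 S

/-- The point of the space with parameter `a`. -/
noncomputable def pt2 (S : Set ℕ) (a : Pm) (h : a ∈ K2 S) : X2 S := ⟨Phi a, a, h, rfl⟩

theorem continuous_rad (n : ℕ) : Continuous (fun a : Pm => a.2.1 n) :=
  (continuous_apply n).comp (continuous_fst.comp continuous_snd)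

theorem continuous_ang (n : ℕ) : Continuous (fun a : Pm => a.2.2 n) :=
  (continuous_apply n).comp (continuous_snd.comp continuous_snd)

theorem isClosed_K2 (S : Set ℕ) : IsClosed (K2 S) := by
  have h1 : K2 S = K S ∩ ⋂ m, ⋂ n, {a : Pm | m ≠ n → a.2.1 m = 1 ∨ a.2.1 n = 1} := by
    ext a
    simp only [K2, Set.mem_ofPred_eq, Set.mem_iInter, Set.mem_inter_iff]
  rw [h1]
  refine (Pool.Agent.W764.LQ.main.1 S).inter (isClosed_iInter fun m => isClosed_iInter fun n => ?_)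
  by_cases h : m = n
  · have : {a : Pm | m ≠ n → a.2.1 m = 1 ∨ a.2.1 n = 1} = Set.univ := by
      ext a
      simp [h]
    rw [this]
    exact isClosed_univ
  · have : {a : Pm | m ≠ n → a.2.1 m = 1 ∨ a.2.1 n = 1} =
        {a : Pm | a.2.1 m = 1} ∪ {a : Pm | a.2.1 n = 1} := by
      ext a
      simp [h]
    rw [this]
    exact (isClosed_eq (continuous_rad m) continuous_const).union
      (isClosed_eq (continuous_rad n) continuous_const)

theorem isCompact_K2 (S : Set ℕ) : IsCompact (K2 S) := (isClosed_K2 S).isCompact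

theorem isCompact_X2 (S : Set ℕ) : IsCompact (X2 S) :=
  (isCompact_K2 S).image Pool.Agent.W764.LQ.main.2

theorem X2_sub (S : Set ℕ) : X2 S ⊆ X S := by
  rintro _ ⟨a, ha, rfl⟩
  exact ⟨a, ha.1, rfl⟩

theorem inj : S_INJ := Pool.Agent.W168.LQ.main

/-- The map to the circle and its divisibility. -/
theorem div2 (S : Set ℕ) : ∃ f : C(X2 S, UnitAddCircle),
    (∀ (a : Pm) (h : a ∈ K2 S), f (pt2 S a h) = a.1) ∧
      ∀ n ∈ S, ∃ g : C(X2 S, UnitAddCircle), ∀ x, M n • g x = f x := by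
  obtain ⟨f, hf, hf2⟩ := Pool.Agent.W395.LQ.Div.main Pool.Agent.W764.LQ.main inj S
  have hi : Continuous (Set.inclusion (X2_sub S)) := continuous_inclusion (X2_sub S)
  refine ⟨⟨fun x => f (Set.inclusion (X2_sub S) x), f.continuous.comp hi⟩, fun a h => ?_,
    fun n hn => ?_⟩
  · exact hf a h.1
  · obtain ⟨g, hg⟩ := hf2 n hn
    exact ⟨⟨fun x => g (Set.inclusion (X2_sub S) x), g.continuous.comp hi⟩,
      fun x => hg (Set.inclusion (X2_sub S) x)⟩

open Pool.Agent.W381.LQ in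
theorem ph_mem2 {S : Set ℕ} {n : ℕ} (hn : n ∉ S) (t : ℝ) : ph n t ∈ K2 S := by
  refine ⟨ph_mem hn t, fun i j hij => ?_⟩
  by_cases hi : i = n
  · right
    have : j ≠ n := fun h => hij (hi.trans h.symm)
    exact if_neg this
  · left
    exact if_neg hi

open Pool.Agent.W381.LQ in
/-- No divisibility for `n ∉ S`. -/
theorem non2 (S : Set ℕ) (f g : C(X2 S, UnitAddCircle)) (n : ℕ)
    (hf : ∀ (a : Pm) (h : a ∈ K2 S), f (pt2 S a h) = a.1) (hg : ∀ x, M n • g x = f x) : n ∈ S := by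
  by_contra hn
  let p : ℝ → X2 S := fun t => pt2 S (ph n t) (ph_mem2 hn t)
  have hp : Continuous p := Continuous.subtype_mk (cont_Phi n) _
  let h : ℝ → UnitAddCircle := fun t => g (p t)
  have hh : Continuous h := g.continuous.comp hp
  have hM : (0 : ℝ) < M n := M_pos n
  have hhM : ∀ t : ℝ, M n • h t = (t : UnitAddCircle) := fun t => by
    change M n • g (p t) = _
    rw [hg, hf]
    rfl
  let u : ℝ → UnitAddCircle := fun t => h t - ((t / M n : ℝ) : UnitAddCircle)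
  have hu : Continuous u := by
    refine hh.sub ?_
    exact (AddCircle.continuous_mk' (1 : ℝ)).comp (continuous_id.div_const _)
  have huM : ∀ t, M n • u t = 0 := fun t => by
    change M n • (h t - ((t / M n : ℝ) : UnitAddCircle)) = 0
    rw [nsmul_sub, hhM, nsmul_div (M n) hM, sub_self]
  have hloc : IsLocallyConstant u := by
    rw [IsLocallyConstant.iff_eventually_eq]
    intro x
    have h1 : ∀ᶠ y in 𝓝 x, dist (u y) (u x) < 1 / (M n : ℝ) :=
      (hu.tendsto x).eventually (Metric.ball_mem_nhds _ (by positivity))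
    filter_upwards [h1] with y hy
    rw [dist_eq_norm] at hy
    have h2 : M n • (u y - u x) = 0 := by rw [nsmul_sub, huM, huM, sub_self]
    exact sub_eq_zero.1 (tor h2 hy)
  have hconst : ∀ t, u t = u 0 := fun t => hloc.apply_eq_of_preconnectedSpace t 0
  have hform : ∀ t, h t - h 0 = ((t / M n : ℝ) : UnitAddCircle) := fun t => by
    have h1 := hconst t
    change h t - ((t / M n : ℝ) : UnitAddCircle) = h 0 - (((0 : ℝ) / M n : ℝ) : UnitAddCircle) at h1
    rw [zero_div, AddCircle.coe_zero, sub_zero] at h1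
    rw [← h1]
    abel
  have ht : Tendsto (fun k : ℕ => p (tk n k)) atTop (𝓝 (p 0)) := by
    rw [tendsto_iff_dist_tendsto_zero]
    refine squeeze_zero (fun _ => dist_nonneg) (fun k => dist_tk n k) ?_
    exact tendsto_pow_atTop_nhds_zero_of_lt_one (by norm_num) (by norm_num)
  have hg2 : Tendsto (fun k : ℕ => h (tk n k)) atTop (𝓝 (h 0)) :=
    (g.continuous.tendsto (p 0)).comp ht
  have hev : ∀ᶠ k : ℕ in atTop, dist (h (tk n k)) (h 0) < 1 / (M n : ℝ) :=
    hg2.eventually (Metric.ball_mem_nhds _ (by positivity))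
  obtain ⟨k, hk⟩ := hev.exists
  rw [dist_eq_norm, hform] at hk
  have h3 : M n • ((((tk n k : ℕ) : ℝ) / M n : ℝ) : UnitAddCircle) = 0 := by
    rw [nsmul_div (M n) hM, coe_nat]
  have h4 := tor h3 hk
  rw [AddCircle.coe_eq_zero_iff] at h4
  obtain ⟨m, hm⟩ := h4
  have h5 : ((tk n k : ℕ) : ℝ) = (M n : ℝ) * m := by
    have : (m : ℝ) = ((tk n k : ℕ) : ℝ) / M n := by simpa using hm
    rw [this]; field_simp
  have h6 : ((tk n k : ℕ) : ℤ) = (M n : ℤ) * m := by exact_mod_cast h5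
  have h7 : M n ∣ tk n k := by
    have : (M n : ℤ) ∣ ((tk n k : ℕ) : ℤ) := ⟨m, h6⟩
    exact_mod_cast this
  have h8 : Nat.Coprime (M n) (tk n k) := by
    unfold tk
    refine Nat.Coprime.prod_right fun j hj => ?_
    have hne : n ≠ j := (Finset.ne_of_mem_erase hj).symm
    exact Nat.coprime_fermatNumber_fermatNumber hne
  have h9 : M n = 1 := Nat.eq_one_of_dvd_coprimes h8 dvd_rfl h7
  have : 2 ≤ M n := by
    unfold M
    have : 0 < 2 ^ 2 ^ n := by positivity
    omega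
  omega

/-! ## The dense sequence -/

/-- Correct all radii to `1`, except for the one with number `m`. -/
def only (m : ℕ) (L : List (ℕ × ℕ)) : List (ℕ × ℕ) :=
  (List.range L.length).map fun n =>
    ((L.getD n (0, 0)).1, if n = m then (L.getD n (0, 0)).2 else 0)

/-- the raw code with number `k` -/
def raw2 (k : ℕ) : ℕ × ℕ × ℕ × ℕ × List (ℕ × ℕ) :=
  (Encodable.decode (α := ℕ × ℕ × ℕ × ℕ × List (ℕ × ℕ)) k).getD (0, 0, 0, 0, [])

/-- the code of the `k`-th point of the dense sequence -/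
def sq2 (T : ℕ → ℕ → Bool) (k : ℕ) : Cd :=
  ((raw2 k).1, (raw2 k).2.1,
    nm T (raw2 k).2.2.1 (only (raw2 k).2.2.2.1 (raw2 k).2.2.2.2))

open Pool.Agent.W654.LQ.Dense in
theorem getD_only (m : ℕ) (L : List (ℕ × ℕ)) (n : ℕ) :
    ((only m L).getD n (0, 0)) =
      if n < L.length then ((L.getD n (0, 0)).1, if n = m then (L.getD n (0, 0)).2 else 0)
      else (0, 0) := by
  unfold only
  rw [getD_map_range]

theorem length_only (m : ℕ) (L : List (ℕ × ℕ)) : (only m L).length = L.length := by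
  simp [only]

theorem rad_one {c : Cd} {n : ℕ} (h0 : (c.2.2.getD n (0, 0)).2 = 0) : (pm c).2.1 n = 1 := by
  apply Subtype.ext
  show ((rho c n : ℕ) : ℝ) / 2 ^ c.2.1 = 1
  unfold rho
  rw [h0, Nat.zero_min, Nat.sub_zero]
  push_cast
  exact div_self (by positivity)

open Pool.Agent.W654.LQ.Dense in
theorem mem_K2 (S : Set ℕ) (T : ℕ → ℕ → Bool) (hT : ∀ n, n ∉ S ↔ ∃ y, T n y = true) (k : ℕ) :
    pm (sq2 T k) ∈ K2 S := by
  refine ⟨fun n => ⟨smul_angle n _ _, fun hn => ?_⟩, fun i j hij => ?_⟩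
  · have hf : fl T n (raw2 k).2.2.1 = false := by
      by_contra h
      rw [Bool.not_eq_false, fl_true] at h
      obtain ⟨y, _, hy⟩ := h
      exact (hT n).mpr ⟨y, hy⟩ hn
    refine rad_one ?_
    unfold sq2
    simp only
    rw [getD_nm, hf]
    split_ifs <;> simp_all
  · have key : ∀ i, i ≠ (raw2 k).2.2.2.1 → (pm (sq2 T k)).2.1 i = 1 := by
      intro i hi
      refine rad_one ?_
      unfold sq2
      simp only
      rw [getD_nm, getD_only, if_neg hi]
      split_ifs <;> simp_all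
    by_cases h : i = (raw2 k).2.2.2.1
    · right
      exact key j fun h' => hij (h.trans h'.symm)
    · left
      exact key i h

open Pool.Agent.W654.LQ.Dense in
theorem dense2 (S : Set ℕ) (T : ℕ → ℕ → Bool) (hT : ∀ n, n ∉ S ↔ ∃ y, T n y = true) :
    ∀ a ∈ K2 S, ∀ ε : ℝ, 0 < ε → ∃ k, dist (Phi a) (Phi (pm (sq2 T k))) < ε := by
  intro a ha2 ε hε
  have ha := ha2.1
  obtain ⟨m, hm⟩ : ∃ m, ∀ n, n ≠ m → a.2.1 n = 1 := by
    by_cases h : ∃ m, a.2.1 m ≠ 1
    · obtain ⟨m, hm⟩ := h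
      exact ⟨m, fun n hn => ((ha2.2 n m hn).resolve_right hm)⟩
    · push Not at h
      exact ⟨0, fun n _ => h n⟩
  obtain ⟨N, hN⟩ := exists_pow_lt_of_lt_one (show (0 : ℝ) < ε / 4 by linarith)
    (show (1 / 2 : ℝ) < 1 by norm_num)
  obtain ⟨l, hl⟩ := exists_pow_lt_of_lt_one (show (0 : ℝ) < ε / 4 by linarith)
    (show (1 / 2 : ℝ) < 1 by norm_num)
  obtain ⟨t, ht0, ht1, ht⟩ := rep_exists a.1
  have hang : ∀ n, ∃ j : ℕ, a.2.2 n = (((t + j) / M n : ℝ) : UnitAddCircle) := by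
    intro n
    apply angle n t ht1
    rw [(ha n).1, ht]
  choose j hj using hang
  have hex : ∀ n, ∃ y, n ∉ S → T n y = true := by
    intro n
    by_cases h : n ∈ S
    · exact ⟨0, fun h' => absurd h h'⟩
    · obtain ⟨y, hy⟩ := (hT n).mp h
      exact ⟨y, fun _ => hy⟩
  choose y hy using hex
  obtain ⟨s, hs⟩ : ∃ s, ∀ n < N, y n < s := by
    refine ⟨(Finset.range N).sup (fun n => y n + 1), fun n hn => ?_⟩
    have : y n + 1 ≤ (Finset.range N).sup (fun n => y n + 1) :=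
      Finset.le_sup (f := fun n => y n + 1) (Finset.mem_range.mpr hn)
    omega
  obtain ⟨L, hLlen, hL⟩ : ∃ L : List (ℕ × ℕ), L.length = N ∧ ∀ n < N, L.getD n (0, 0) =
      (j n, ⌊(1 - (a.2.1 n : ℝ)) * 2 ^ l⌋₊) := by
    refine ⟨(List.range N).map (fun n => (j n, ⌊(1 - (a.2.1 n : ℝ)) * 2 ^ l⌋₊)), by simp,
      fun n hn => ?_⟩
    rw [getD_map_range, if_pos hn]
  obtain ⟨k, hraw⟩ : ∃ k, raw2 k = (⌊t * 2 ^ l⌋₊, l, s, m, L) := by
    refine ⟨Encodable.encode ((⌊t * 2 ^ l⌋₊, l, s, m, L) : ℕ × ℕ × ℕ × ℕ × List (ℕ × ℕ)), ?_⟩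
    unfold raw2
    rw [Encodable.encodek]
    rfl
  have hsq : sq2 T k = (⌊t * 2 ^ l⌋₊, l, nm T s (only m L)) := by
    unfold sq2
    rw [hraw]
  have hone : ∀ n, a.2.1 n = 1 → ⌊(1 - (a.2.1 n : ℝ)) * 2 ^ l⌋₊ = 0 := by
    intro n hn
    rw [hn]
    simp
  have hgetD : ∀ n < N, (nm T s (only m L)).getD n (0, 0) =
      (j n, ⌊(1 - (a.2.1 n : ℝ)) * 2 ^ l⌋₊) := by
    intro n hn
    rw [getD_nm, length_only, hLlen, if_pos hn, getD_only, hLlen, if_pos hn, hL n hn]
    by_cases hnm : n = m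
    · by_cases hnS : n ∈ S
      · have e2 := hone n ((ha n).2 hnS)
        simp [e2]
      · have e2 : fl T n s = true := by
          rw [fl_true]
          exact ⟨y n, hs n hn, hy n hnS⟩
        subst hnm
        simp [e2]
    · have e2 := hone n (hm n hnm)
      simp [e2, hnm]
  refine ⟨k, ?_⟩
  rw [hsq]
  have := dist_est a (⌊t * 2 ^ l⌋₊, l, nm T s (only m L)) t N ε j hN hl ht hj
    (floor_approx t ht0 l) hgetD
  linarith

open Pool.Agent.Helper227 Pool.Agent.H685R3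

theorem p_only : Primrec₂ only := by
  unfold only
  have h1 : Primrec fun x : ℕ × List (ℕ × ℕ) => List.range x.2.length :=
    Primrec.list_range.comp (Primrec.list_length.comp Primrec.snd)
  have hg : Primrec fun z : (ℕ × List (ℕ × ℕ)) × ℕ => z.1.2.getD z.2 (0, 0) :=
    (Primrec.list_getD ((0, 0) : ℕ × ℕ)).comp (Primrec.snd.comp Primrec.fst) Primrec.snd
  have h2 : Primrec₂ fun (x : ℕ × List (ℕ × ℕ)) (n : ℕ) =>
      ((x.2.getD n (0, 0)).1, if n = x.1 then (x.2.getD n (0, 0)).2 else 0) := by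
    refine Primrec.pair (Primrec.fst.comp hg) ?_
    refine Primrec.ite (Primrec.eq.comp Primrec.snd (Primrec.fst.comp Primrec.fst))
      (Primrec.snd.comp hg) (Primrec.const 0)
  exact Primrec.list_map h1 h2

theorem p_raw2 : Primrec raw2 :=
  Primrec.option_getD.comp Primrec.decode (Primrec.const (0, 0, 0, 0, []))

/-- the data used by `sq2` -/
def rd (r : ℕ × ℕ × ℕ × ℕ × List (ℕ × ℕ)) : ℕ × ℕ × ℕ × List (ℕ × ℕ) :=
  (r.1, r.2.1, r.2.2.1, only r.2.2.2.1 r.2.2.2.2)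

theorem p_rd : Primrec rd := by
  unfold rd
  have p2 : Primrec fun r : ℕ × ℕ × ℕ × ℕ × List (ℕ × ℕ) => r.2 := Primrec.snd
  have p3 : Primrec fun r : ℕ × ℕ × ℕ × ℕ × List (ℕ × ℕ) => r.2.2 := Primrec.snd.comp p2
  have p4 : Primrec fun r : ℕ × ℕ × ℕ × ℕ × List (ℕ × ℕ) => r.2.2.2 := Primrec.snd.comp p3
  have q1 : Primrec fun r : ℕ × ℕ × ℕ × ℕ × List (ℕ × ℕ) => r.2.1 := Primrec.fst.comp p2
  have q2 : Primrec fun r : ℕ × ℕ × ℕ × ℕ × List (ℕ × ℕ) => r.2.2.1 := Primrec.fst.comp p3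
  have q3 : Primrec fun r : ℕ × ℕ × ℕ × ℕ × List (ℕ × ℕ) => r.2.2.2.1 := Primrec.fst.comp p4
  have q4 : Primrec fun r : ℕ × ℕ × ℕ × ℕ × List (ℕ × ℕ) => r.2.2.2.2 := Primrec.snd.comp p4
  exact Primrec.fst.pair (q1.pair (q2.pair (p_only.comp q3 q4)))

theorem sq2_eq (T : ℕ → ℕ → Bool) (k : ℕ) : sq2 T k =
    ((rd (raw2 k)).1, (rd (raw2 k)).2.1, nm T (rd (raw2 k)).2.2.1 (rd (raw2 k)).2.2.2) := by
  unfold sq2 rd
  generalize raw2 k = r
  simp only

/-- The dense sequence is computable with the oracle. -/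
theorem nm2 (D : ℕ → Bool) (T : ℕ → ℕ → Bool) (hT : TLe (fun m => T m.unpair.1 m.unpair.2) D) :
    SI D fun x : ℕ × Cd => sq2 T x.1 = x.2 := by
  have hT' := tLe_iff_SI.1 hT
  obtain ⟨h1, h2⟩ := Pool.Agent.W585.LQ.NM.aux D T hT'
  have p1 : Primrec fun x : ℕ × Cd => rd (raw2 x.1) := p_rd.comp (p_raw2.comp Primrec.fst)
  have h3 := Pool.Agent.W585.LQ.NM.aux3 D T h1 h2 (fun x : ℕ × Cd => rd (raw2 x.1))
    (fun x : ℕ × Cd => x.2) p1 Primrec.snd
  refine h3.of_eq fun x => ?_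
  rw [sq2_eq]

end Pool.Agent.U64.FD
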