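import Pool.Agent.U64.FD.Basic

/-!
# The space `X2 S` is connected
-/

set_option autoImplicit false

open Filter Topology

namespace Pool.Agent.U64.FD

open Pool.Agent.W361.LQ

/-- the dense path -/
noncomputable def pa (t : ℝ) : Pm :=
  ((t : UnitAddCircle), fun _ => 1, fun j => ((t / M j : ℝ) : UnitAddCircle))

theorem continuous_pa : Continuous pa := by
  have h : Continuous fun t : ℝ => (t : UnitAddCircle) := AddCircle.continuous_mk' (1 : ℝ)
  refine h.prodMk (continuous_const.prodMk (continuous_pi fun j => ?_))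
  exact h.comp (continuous_id.div_const _)

/-- the points with all radii equal to `1` -/
def Sg (S : Set ℕ) : Set Pm := {a | a ∈ K2 S ∧ ∀ n, a.2.1 n = 1}

theorem pa_mem (S : Set ℕ) (t : ℝ) : pa t ∈ Sg S := by
  refine ⟨⟨fun n => ⟨?_, fun _ => rfl⟩, fun _ _ _ => Or.inl rfl⟩, fun _ => rfl⟩
  exact Pool.Agent.W381.LQ.nsmul_div (M n) (Pool.Agent.W381.LQ.M_pos n) t

theorem coe_int_zero (j : ℤ) : ((j : ℝ) : UnitAddCircle) = 0 := by
  rw [AddCircle.coe_eq_zero_iff]
  exact ⟨j, by simp⟩

theorem M_ne (n : ℕ) : M n ≠ 0 := Nat.succ_ne_zero _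

theorem coprime_M {i j : ℕ} (h : i ≠ j) : Nat.Coprime (M i) (M j) :=
  Nat.coprime_fermatNumber_fermatNumber h

open Pool.Agent.W654.LQ.Dense in
theorem Sg_sub_closure (S : Set ℕ) : Sg S ⊆ closure (Set.range pa) := by
  intro a ha
  obtain ⟨t, ht0, ht1, ht⟩ := rep_exists a.1
  have hang : ∀ n, ∃ j : ℕ, a.2.2 n = (((t + j) / M n : ℝ) : UnitAddCircle) := by
    intro n
    apply angle n t ht1
    rw [(ha.1.1 n).1, ht]
  choose j hj using hang
  have hk : ∀ N : ℕ, ∃ k : ℕ, ∀ i ∈ Finset.range N, k ≡ j i [MOD M i] := by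
    intro N
    obtain ⟨k, hk⟩ := Nat.chineseRemainderOfFinset j M (Finset.range N) (fun i _ => M_ne i)
      (fun i _ i' _ h => coprime_M h)
    exact ⟨k, hk⟩
  choose k hk using hk
  have hw : ∀ N n, n < N → (pa (t + k N)).2.2 n = a.2.2 n := by
    intro N n hn
    have h1 := hk N n (Finset.mem_range.2 hn)
    rw [hj n]
    have h2 : ∃ z : ℤ, ((k N : ℕ) : ℝ) = (j n : ℝ) + M n * z := by
      obtain ⟨z, hz⟩ := Nat.modEq_iff_dvd.1 h1.symm
      refine ⟨z, ?_⟩
      have : ((k N : ℤ) : ℝ) - ((j n : ℤ) : ℝ) = ((M n : ℤ) : ℝ) * (z : ℝ) := by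
        exact_mod_cast congrArg (fun x : ℤ => (x : ℝ)) hz
      push_cast at this
      linarith
    obtain ⟨z, hz⟩ := h2
    show (((t + k N) / M n : ℝ) : UnitAddCircle) = _
    have h3 : (t + (k N : ℝ)) / M n = (t + j n) / M n + z := by
      rw [hz]
      have := M_pos n
      field_simp
      ring
    rw [h3, AddCircle.coe_add, coe_int_zero, add_zero]
  have hlim : Tendsto (fun N : ℕ => pa (t + k N)) atTop (𝓝 a) := by
    refine Tendsto.prodMk_nhds ?_ (Tendsto.prodMk_nhds ?_ ?_)
    · have : ∀ N : ℕ, ((t + k N : ℝ) : UnitAddCircle) = a.1 := by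
        intro N
        rw [AddCircle.coe_add, coe_nat_zero, add_zero, ht]
      exact tendsto_const_nhds.congr fun N => (this N).symm
    · have : (fun _ : ℕ => (1 : unitInterval)) = a.2.1 := by
        funext n
        exact (ha.2 n).symm
      rw [this]
      exact tendsto_const_nhds
    · rw [tendsto_pi_nhds]
      intro n
      refine tendsto_const_nhds.congr' ?_
      filter_upwards [eventually_gt_atTop n] with N hN
      exact (hw N n hN).symm
  exact mem_closure_of_tendsto hlim (Eventually.of_forall fun N => ⟨_, rfl⟩)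

theorem isPreconnected_Sg (S : Set ℕ) : IsPreconnected (Sg S) := by
  have h : IsPreconnected (Set.range pa) := isPreconnected_range continuous_pa
  exact h.subset_closure (by rintro _ ⟨t, rfl⟩; exact pa_mem S t) (Sg_sub_closure S)

theorem isConnected_K2 (S : Set ℕ) : IsConnected (K2 S) := by
  refine ⟨⟨pa 0, (pa_mem S 0).1⟩, ?_⟩
  refine isPreconnected_of_forall (pa 0) fun y hy => ?_
  by_cases hall : ∀ n, y.2.1 n = 1
  · exact ⟨Sg S, fun a ha => ha.1, pa_mem S 0, ⟨hy, hall⟩, isPreconnected_Sg S⟩
  · push Not at hall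
    obtain ⟨m, hm⟩ := hall
    have hoth : ∀ n, n ≠ m → y.2.1 n = 1 := fun n hn => (hy.2 n m hn).resolve_right hm
    have hmS : m ∉ S := fun h => hm ((hy.1 m).2 h)
    let sg : unitInterval → Pm := fun s => (y.1, Function.update y.2.1 m s, y.2.2)
    have hsg : Continuous sg := by
      refine continuous_const.prodMk (Continuous.prodMk ?_ continuous_const)
      exact continuous_const.update m continuous_id
    have hmem : ∀ s, sg s ∈ K2 S := by
      intro s
      refine ⟨fun n => ⟨(hy.1 n).1, fun hn => ?_⟩, fun i j hij => ?_⟩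
      · have : n ≠ m := fun h => hmS (h ▸ hn)
        show Function.update y.2.1 m s n = 1
        rw [Function.update_of_ne this]
        exact hoth n this
      · have key : ∀ i, i ≠ m → (sg s).2.1 i = 1 := fun i hi => by
          show Function.update y.2.1 m s i = 1
          rw [Function.update_of_ne hi]
          exact hoth i hi
        by_cases hi : i = m
        · exact Or.inr (key j fun h => hij (hi.trans h.symm))
        · exact Or.inl (key i hi)
    have h1 : sg 1 ∈ Sg S := by
      refine ⟨hmem 1, fun n => ?_⟩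
      show Function.update y.2.1 m 1 n = 1
      by_cases hn : n = m
      · rw [hn, Function.update_self]
      · rw [Function.update_of_ne hn]
        exact hoth n hn
    have h2 : sg (y.2.1 m) = y := by
      show (y.1, Function.update y.2.1 m (y.2.1 m), y.2.2) = y
      rw [Function.update_eq_self]
    refine ⟨Sg S ∪ Set.range sg, ?_, Or.inl (pa_mem S 0), Or.inr ⟨_, h2⟩, ?_⟩
    · rintro a (ha | ⟨s, rfl⟩)
      · exact ha.1
      · exact hmem s
    · exact IsPreconnected.union (sg 1) h1 ⟨1, rfl⟩ (isPreconnected_Sg S)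
        (isPreconnected_range hsg)

theorem isConnected_X2 (S : Set ℕ) : IsConnected (X2 S) :=
  (isConnected_K2 S).image _ Pool.Agent.W764.LQ.main.2.continuousOn

end Pool.Agent.U64.FD
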