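import Mathlib

/-!
# Covers of bounded order from maps to a Euclidean space
-/

set_option autoImplicit false

open Filter Topology

namespace Pool.Agent.U64.FD

/-- A map `ψ` on a compact set `C` with small fibres gives a cover of the open set `O ⊆ q(C)` by
finitely many small open sets of bounded order. -/
theorem piece {P X : Type} [TopologicalSpace P] [MetricSpace X] {k : ℕ} (q : P → X)
    (hq : Continuous q) (C : Set P) (hC : IsCompact C) (ψ : P → Fin k → ℝ) (hψ : Continuous ψ)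
    (ε : ℝ) (hwd : ∀ a ∈ C, ∀ b ∈ C, q a = q b → ψ a = ψ b)
    (hfib : ∀ a ∈ C, ∀ b ∈ C, ψ a = ψ b → dist (q a) (q b) < ε)
    (O : Set X) (hO : IsOpen O) (hOC : O ⊆ q '' C) :
    ∃ (κ : Type) (_ : Finite κ) (V : κ → Set X), (∀ i, IsOpen (V i)) ∧ (∀ i, V i ⊆ O) ∧
      (∀ x ∈ O, ∃ i, x ∈ V i) ∧ (∀ i, ∀ x ∈ V i, ∀ y ∈ V i, dist x y < ε) ∧
      ∀ x, Set.ncard {i | x ∈ V i} ≤ 2 ^ k := by
  -- the mesh
  obtain ⟨h, hh, hsmall⟩ : ∃ h : ℝ, 0 < h ∧ ∀ a ∈ C, ∀ b ∈ C, dist (ψ a) (ψ b) < 2 * h →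
      dist (q a) (q b) < ε := by
    let Z : Set (P × P) := (C ×ˢ C) ∩ {p | ε ≤ dist (q p.1) (q p.2)}
    have hZ : IsCompact Z := by
      refine (hC.prod hC).inter_right ?_
      exact isClosed_le continuous_const
        ((hq.comp continuous_fst).dist (hq.comp continuous_snd))
    have hg : Continuous fun p : P × P => dist (ψ p.1) (ψ p.2) :=
      (hψ.comp continuous_fst).dist (hψ.comp continuous_snd)
    rcases Z.eq_empty_or_nonempty with hZe | hZn
    · refine ⟨1, one_pos, fun a ha b hb _ => ?_⟩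
      by_contra hc
      have : (a, b) ∈ Z := ⟨⟨ha, hb⟩, not_lt.1 hc⟩
      rw [hZe] at this
      exact this
    · obtain ⟨p, hp, hmin⟩ := hZ.exists_isMinOn hZn hg.continuousOn
      have hpos : 0 < dist (ψ p.1) (ψ p.2) := by
        rw [dist_pos]
        intro he
        exact absurd (hfib p.1 hp.1.1 p.2 hp.1.2 he) (not_lt.2 hp.2)
      refine ⟨dist (ψ p.1) (ψ p.2) / 2, by linarith, fun a ha b hb hab => ?_⟩
      by_contra hc
      have : (a, b) ∈ Z := ⟨⟨ha, hb⟩, not_lt.1 hc⟩
      have h2 := isMinOn_iff.1 hmin (a, b) this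
      simp only at h2
      linarith
  -- the bound
  obtain ⟨B, hB⟩ : ∃ B : ℤ, ∀ a ∈ C, ∀ j, |round (ψ a j / h)| ≤ B := by
    obtain ⟨R, hR⟩ := (hC.image hψ).isBounded.exists_norm_le
    refine ⟨⌈R / h⌉ + 1, fun a ha j => ?_⟩
    have h1 : |ψ a j| ≤ R := by
      have := norm_le_pi_norm (ψ a) j
      rw [Real.norm_eq_abs] at this
      exact this.trans (hR _ ⟨a, ha, rfl⟩)
    have h2 : |ψ a j / h| ≤ R / h := by
      rw [abs_div, abs_of_pos hh]
      exact div_le_div_of_nonneg_right h1 hh.le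
    have h3 := abs_sub_round (ψ a j / h)
    have h4 : |((round (ψ a j / h) : ℤ) : ℝ)| ≤ R / h + 1 := by
      have : ((round (ψ a j / h) : ℤ) : ℝ) =
          ψ a j / h - (ψ a j / h - ((round (ψ a j / h) : ℤ) : ℝ)) := by ring
      rw [this]
      refine (abs_sub _ _).trans ?_
      linarith
    have h5 : ((|round (ψ a j / h)| : ℤ) : ℝ) ≤ ((⌈R / h⌉ + 1 : ℤ) : ℝ) := by
      push_cast
      exact h4.trans (by linarith [Int.le_ceil (R / h)])
    exact_mod_cast h5
  let κ : Type := Fin k → (Finset.Icc (-B) B : Finset ℤ)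
  let bad : κ → Set X := fun i => q '' (C ∩ {a | ∃ j, h ≤ |ψ a j - ((i j : ℤ) : ℝ) * h|})
  have hbad : ∀ i, IsClosed (bad i) := by
    intro i
    refine (IsCompact.image (hC.inter_right ?_) hq).isClosed
    have : {a | ∃ j, h ≤ |ψ a j - ((i j : ℤ) : ℝ) * h|} =
        ⋃ j, {a | h ≤ |ψ a j - ((i j : ℤ) : ℝ) * h|} := by
      ext a
      simp
    rw [this]
    refine isClosed_iUnion_of_finite fun j => ?_
    exact isClosed_le continuous_const
      ((((continuous_apply j).comp hψ).sub continuous_const).abs)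
  have hnot : ∀ i, ∀ x ∈ O \ bad i, ∀ a ∈ C, q a = x → ∀ j, |ψ a j - ((i j : ℤ) : ℝ) * h| < h := by
    intro i x hx a ha hax j
    by_contra hc
    exact hx.2 ⟨a, ⟨ha, j, not_lt.1 hc⟩, hax⟩
  refine ⟨κ, inferInstance, fun i => O \ bad i, fun i => hO.sdiff (hbad i), fun i => Set.sdiff_subset,
    fun x hx => ?_, fun i x hx y hy => ?_, fun x => ?_⟩
  · obtain ⟨a, ha, rfl⟩ := hOC hx
    refine ⟨fun j => ⟨round (ψ a j / h), ?_⟩, hx, ?_⟩
    · rw [Finset.mem_Icc]
      exact abs_le.1 (hB a ha j)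
    · rintro ⟨b, ⟨hb, j, hj⟩, hbe⟩
      have h1 := hwd b hb a ha hbe
      rw [h1] at hj
      simp only at hj
      have h2 := abs_sub_round (ψ a j / h)
      have h3 : ψ a j - ((round (ψ a j / h) : ℤ) : ℝ) * h =
          (ψ a j / h - ((round (ψ a j / h) : ℤ) : ℝ)) * h := by
        field_simp
      rw [h3, abs_mul, abs_of_pos hh] at hj
      nlinarith
  · obtain ⟨a, ha, rfl⟩ := hOC hx.1
    obtain ⟨b, hb, rfl⟩ := hOC hy.1
    refine hsmall a ha b hb ?_
    rw [dist_pi_lt_iff (by linarith)]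
    intro j
    have h1 := hnot i _ hx a ha rfl j
    have h2 := hnot i _ hy b hb rfl j
    rw [Real.dist_eq]
    have h3 : ψ a j - ψ b j = (ψ a j - ((i j : ℤ) : ℝ) * h) - (ψ b j - ((i j : ℤ) : ℝ) * h) := by ring
    rw [h3]
    exact (abs_sub _ _).trans_lt (by linarith)
  · by_cases hx : x ∈ O
    · obtain ⟨a, ha, rfl⟩ := hOC hx
      let F : κ → (Fin k → Bool) := fun i j => decide ((i j : ℤ) = ⌊ψ a j / h⌋)
      have hinj : Set.InjOn F {i | q a ∈ O \ bad i} := by
        intro i hi i' hi' hF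
        funext j
        apply Subtype.ext
        have key : ∀ i, q a ∈ O \ bad i → (i j : ℤ) = ⌊ψ a j / h⌋ ∨ (i j : ℤ) = ⌊ψ a j / h⌋ + 1 := by
          intro i hi
          have h1 := hnot i _ hi a ha rfl j
          have h3 : ψ a j - ((i j : ℤ) : ℝ) * h = (ψ a j / h - ((i j : ℤ) : ℝ)) * h := by
            field_simp
          rw [h3, abs_mul, abs_of_pos hh] at h1
          have h4 : |ψ a j / h - ((i j : ℤ) : ℝ)| < 1 := by
            by_contra hc
            push Not at hc
            nlinarith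
          rw [abs_lt] at h4
          have h5 := Int.floor_le (ψ a j / h)
          have h6 := Int.lt_floor_add_one (ψ a j / h)
          have h7 : (((i j : ℤ) : ℝ)) < ((⌊ψ a j / h⌋ + 2 : ℤ) : ℝ) := by push_cast; linarith
          have h8 : ((⌊ψ a j / h⌋ - 1 : ℤ) : ℝ) < (((i j : ℤ) : ℝ)) := by push_cast; linarith
          have h9 : (i j : ℤ) < ⌊ψ a j / h⌋ + 2 := by exact_mod_cast h7
          have h10 : ⌊ψ a j / h⌋ - 1 < (i j : ℤ) := by exact_mod_cast h8
          omega
        have hFj := congrFun hF j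
        simp only [F] at hFj
        have e1 := key i hi
        have e2 := key i' hi'
        by_cases h1 : (i j : ℤ) = ⌊ψ a j / h⌋
        · have : (i' j : ℤ) = ⌊ψ a j / h⌋ := by
            by_contra h2
            simp [h1, h2] at hFj
          omega
        · have : ¬ (i' j : ℤ) = ⌊ψ a j / h⌋ := by
            intro h2
            simp [h1, h2] at hFj
          omega
      have h1 : Set.ncard {i | q a ∈ O \ bad i} ≤ Set.ncard (Set.univ : Set (Fin k → Bool)) :=
        Set.ncard_le_ncard_of_injOn F (fun _ _ => Set.mem_univ _) hinj Set.finite_univ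
      rw [Set.ncard_univ, Nat.card_fun, Nat.card_eq_fintype_card, Nat.card_eq_fintype_card,
        Fintype.card_bool, Fintype.card_fin] at h1
      exact h1
    · have : {i | x ∈ O \ bad i} = ∅ := by
        ext i
        simp [hx]
      show Set.ncard {i | x ∈ O \ bad i} ≤ _
      rw [this]
      simp

end Pool.Agent.U64.FD
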