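import Pool.Agent.U64.FD.Basic
import Pool.Agent.U64.FD.Piece
import Pool.Agent.W952.LP.Defs

/-!
# The space `X2 S` is finite-dimensional
-/

set_option autoImplicit false

open Filter Topology

namespace Pool.Agent.U64.FD

open Pool.Agent.W361.LQ Pool.Agent.W952.LP

theorem coprime_M' {i j : ℕ} (h : i ≠ j) : Nat.Coprime (M i) (M j) :=
  Nat.coprime_fermatNumber_fermatNumber h

/-- One angle which determines finitely many angles. -/
theorem master (A : Finset ℕ) : ∃ u : Pm → UnitAddCircle, Continuous u ∧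
    (∀ a b : Pm, a.1 = b.1 → (∀ m ∈ A, a.2.2 m = b.2.2 m) → u a = u b) ∧
    (∀ a : Pm, (∀ m ∈ A, M m • a.2.2 m = a.1) → a.1 = (∏ m ∈ A, M m) • u a) ∧
    (∀ a b : Pm, (∀ m ∈ A, M m • a.2.2 m = a.1) → (∀ m ∈ A, M m • b.2.2 m = b.1) → u a = u b →
      ∀ m ∈ A, a.2.2 m = b.2.2 m) := by
  induction A using Finset.induction_on with
  | empty =>
    refine ⟨fun a => a.1, continuous_fst, fun a b h _ => h, fun a _ => by simp, ?_⟩
    intro a b _ _ _ m hm
    exact absurd hm (Finset.notMem_empty m)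
  | insert j A hj ih =>
    obtain ⟨u, hu, h1, h2, h3⟩ := ih
    have hco : Nat.Coprime (∏ m ∈ A, M m) (M j) := by
      refine Nat.Coprime.prod_left fun m hm => ?_
      exact coprime_M' fun h => hj (h ▸ hm)
    have hco' : IsCoprime ((∏ m ∈ A, M m : ℕ) : ℤ) ((M j : ℕ) : ℤ) := Nat.isCoprime_iff_coprime.2 hco
    obtain ⟨x, y, hxy⟩ := hco'
    have key : ∀ a : Pm, (∀ m ∈ insert j A, M m • a.2.2 m = a.1) →
        M j • (x • a.2.2 j + y • u a) = u a ∧
        (∏ m ∈ A, M m) • (x • a.2.2 j + y • u a) = a.2.2 j := by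
      intro a ha
      have e1 := h2 a fun m hm => ha m (Finset.mem_insert_of_mem hm)
      have e2 := ha j (Finset.mem_insert_self j A)
      have e3 : ((M j : ℕ) : ℤ) • a.2.2 j = ((∏ m ∈ A, M m : ℕ) : ℤ) • u a := by
        rw [natCast_zsmul, natCast_zsmul, e2, ← e1]
      constructor
      · rw [← natCast_zsmul, smul_add, smul_comm ((M j : ℕ) : ℤ) x, e3, smul_comm x, ← mul_smul,
          ← mul_smul, ← add_smul]
        rw [show ((∏ m ∈ A, M m : ℕ) : ℤ) * x + ((M j : ℕ) : ℤ) * y = 1 by rw [← hxy]; ring,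
          one_smul]
      · rw [← natCast_zsmul, smul_add, smul_comm ((∏ m ∈ A, M m : ℕ) : ℤ) y, ← e3, ← mul_smul,
          ← mul_smul, ← add_smul]
        rw [show ((∏ m ∈ A, M m : ℕ) : ℤ) * x + y * ((M j : ℕ) : ℤ) = 1 by rw [← hxy]; ring,
          one_smul]
    refine ⟨fun a => x • a.2.2 j + y • u a, ?_, ?_, ?_, ?_⟩
    · exact ((continuous_ang j).const_smul x).add (hu.const_smul y)
    · intro a b hab hw
      show x • a.2.2 j + y • u a = x • b.2.2 j + y • u b
      rw [hw j (Finset.mem_insert_self j A), h1 a b hab fun m hm => hw m (Finset.mem_insert_of_mem hm)]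
    · intro a ha
      show a.1 = (∏ m ∈ insert j A, M m) • (x • a.2.2 j + y • u a)
      rw [Finset.prod_insert hj, mul_comm, mul_smul, (key a ha).1]
      exact h2 a fun m hm => ha m (Finset.mem_insert_of_mem hm)
    · intro a b ha hb hab m hm
      simp only at hab
      rcases Finset.mem_insert.1 hm with rfl | hm
      · rw [← (key a ha).2, ← (key b hb).2, hab]
      · have e : u a = u b := by rw [← (key a ha).1, ← (key b hb).1, hab]
        exact h3 a b (fun m hm => ha m (Finset.mem_insert_of_mem hm))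
          (fun m hm => hb m (Finset.mem_insert_of_mem hm)) e m hm

/-- the quarter -/
noncomputable def qu : UnitAddCircle := ((1 / 4 : ℝ) : UnitAddCircle)

theorem far {a b : Pm} {N i : ℕ} (hi : N < i) : dist (crd a i) (crd b i) ≤ (1 / 2 : ℝ) ^ N := by
  have h1 := norm_crd_le' a i
  have h2 := norm_crd_le' b i
  have h3 : (1 / 2 : ℝ) ^ i ≤ (1 / 2 : ℝ) ^ (N + 1) :=
    pow_le_pow_of_le_one (by norm_num) (by norm_num) hi
  have h4 : (1 / 2 : ℝ) ^ (N + 1) = (1 / 2 : ℝ) ^ N / 2 := by rw [pow_succ]; ring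
  have h5 := dist_le_norm_add_norm (crd a i) (crd b i)
  linarith

open Pool.Agent.W654.LQ.Dense in
theorem near_crd {a b : Pm} {n : ℕ} {η : ℝ} (h : |(a.2.1 n : ℝ) - (b.2.1 n : ℝ)| ≤ η)
    (hw : a.2.2 n = b.2.2 n) : dist (crd a (n + 1)) (crd b (n + 1)) ≤ η := by
  have e1 : ‖(1 / 2 : ℝ) ^ (n + 1)‖ ≤ 1 := by
    rw [norm_pow]
    refine pow_le_one₀ (norm_nonneg _) ?_
    norm_num
  have e2 := dist_co (a.2.1 n : ℝ) (b.2.1 n : ℝ) (a.2.2 n) (b.2.2 n) (b.2.1 n).2.1 (b.2.1 n).2.2
  rw [hw, sub_self, norm_zero, add_zero] at e2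
  have e3 : dist (crd a (n + 1)) (crd b (n + 1)) = ‖(1 / 2 : ℝ) ^ (n + 1)‖ *
      dist (co (a.2.1 n : ℝ) (a.2.2 n)) (co (b.2.1 n : ℝ) (b.2.2 n)) := by
    rw [← dist_smul₀]
    rfl
  rw [e3, hw]
  calc _ ≤ 1 * dist (co (a.2.1 n : ℝ) (b.2.2 n)) (co (b.2.1 n : ℝ) (b.2.2 n)) :=
        mul_le_mul_of_nonneg_right e1 dist_nonneg
    _ ≤ η := by linarith

theorem crd_zero {a b : Pm} (h : a.1 = b.1) : crd a 0 = crd b 0 := by
  unfold crd
  rw [if_pos rfl, if_pos rfl, h]

theorem crd_succ {a b : Pm} {n : ℕ}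
    (h : co (a.2.1 n : ℝ) (a.2.2 n) = co (b.2.1 n : ℝ) (b.2.2 n)) :
    crd a (n + 1) = crd b (n + 1) := by
  unfold crd
  rw [if_neg (Nat.succ_ne_zero n), if_neg (Nat.succ_ne_zero n), Nat.add_sub_cancel, h]

/-- The covering dimension of `X2 S` is finite (it is in fact two). -/
theorem dimLE (S : Set ℕ) : DimLE (X2 S) 35 := by
  intro ι _ U hU hcov
  have hcX : CompactSpace (X2 S) := isCompact_iff_compactSpace.1 (isCompact_X2 S)
  have hcK : CompactSpace (K2 S) := isCompact_iff_compactSpace.1 (isCompact_K2 S)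
  obtain ⟨q, hqdef⟩ : ∃ q : K2 S → X2 S, q = fun a => pt2 S a.1 a.2 := ⟨_, rfl⟩
  have hq : Continuous q := by
    rw [hqdef]
    exact Continuous.subtype_mk (Pool.Agent.W764.LQ.main.2.comp continuous_subtype_val) _
  have hqs : Function.Surjective q := by
    rw [hqdef]
    rintro ⟨_, a, ha, rfl⟩
    exact ⟨⟨a, ha⟩, rfl⟩
  have hqd : ∀ a b : K2 S, dist (q a) (q b) = dist (Phi a.1) (Phi b.1) := by
    intro a b
    rw [hqdef]
    rfl
  have hqi : ∀ a b : K2 S, q a = q b → a.1.1 = b.1.1 ∧ ∀ n, a.1.2.1 n = b.1.2.1 n ∧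
      (a.1.2.1 n ≠ 0 → a.1.2.2 n = b.1.2.2 n) := by
    intro a b hab
    refine inj a.1 b.1 ?_
    rw [hqdef] at hab
    exact congrArg Subtype.val hab
  -- Lebesgue number
  obtain ⟨ε, hε, hleb⟩ := lebesgue_number_lemma_of_metric (isCompact_univ (X := X2 S)) hU
    (by rw [hcov])
  obtain ⟨N, hN⟩ := exists_pow_lt_of_lt_one hε (show (1 / 2 : ℝ) < 1 by norm_num)
  obtain ⟨η, hη0, hη1, hηε⟩ : ∃ η : ℝ, 0 < η ∧ η ≤ 1 / 2 ∧ η < ε :=
    ⟨min (ε / 2) (1 / 2), lt_min (by linarith) (by norm_num), min_le_right _ _,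
      (min_le_left _ _).trans_lt (by linarith)⟩
  have crad : ∀ n, Continuous fun a : K2 S => (a.1.2.1 n : ℝ) := fun n =>
    continuous_subtype_val.comp ((continuous_rad n).comp continuous_subtype_val)
  have cang : ∀ n, Continuous fun a : K2 S => a.1.2.2 n := fun n =>
    (continuous_ang n).comp continuous_subtype_val
  -- the piece around the solenoid
  obtain ⟨κ0, hκ0, V0, hV0o, hV0s, hV0c, hV0d, hV0n⟩ : ∃ (κ : Type) (_ : Finite κ)
      (V : κ → Set (X2 S)), (∀ i, IsOpen (V i)) ∧ (∀ i, V i ⊆ Set.univ) ∧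
      (∀ x, (∀ a, q a = x → ∀ n < N, 1 - η < (a.1.2.1 n : ℝ)) → ∃ i, x ∈ V i) ∧
      (∀ i, ∀ x ∈ V i, ∀ y ∈ V i, dist x y < ε) ∧ ∀ x, Set.ncard {i | x ∈ V i} ≤ 2 ^ 2 := by
    obtain ⟨u, hu, hu1, hu2, hu3⟩ := master (Finset.range N)
    let C : Set (K2 S) := {a | ∀ n ∈ Finset.range N, 1 - η ≤ (a.1.2.1 n : ℝ)}
    have hC : IsCompact C := by
      refine IsClosed.isCompact ?_
      have : C = ⋂ n ∈ Finset.range N, {a : K2 S | 1 - η ≤ (a.1.2.1 n : ℝ)} := by
        ext a
        simp [C]
      rw [this]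
      exact isClosed_biInter fun n _ => isClosed_le continuous_const (crad n)
    let Bd : Set (K2 S) := ⋃ n ∈ Finset.range N, {a : K2 S | (a.1.2.1 n : ℝ) ≤ 1 - η}
    have hBd : IsCompact Bd := by
      refine IsClosed.isCompact ?_
      exact (Finset.range N).finite_toSet.isClosed_biUnion
        fun n _ => isClosed_le (crad n) continuous_const
    let O : Set (X2 S) := (q '' Bd)ᶜ
    have hO : IsOpen O := (hBd.image hq).isClosed.isOpen_compl
    have hOC : O ⊆ q '' C := by
      intro x hx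
      obtain ⟨a, rfl⟩ := hqs x
      refine ⟨a, fun n hn => ?_, rfl⟩
      by_contra hc
      push Not at hc
      refine hx ⟨a, ?_, rfl⟩
      simp only [Bd, Set.mem_iUnion]
      exact ⟨n, hn, hc.le⟩
    have hsol : ∀ a : K2 S, ∀ m ∈ Finset.range N, M m • a.1.2.2 m = a.1.1 :=
      fun a m _ => (a.2.1 m).1
    obtain ⟨κ, hκ, V, h1, h2, h3, h4, h5⟩ := piece q hq C hC
      (fun a j => if j = (0 : Fin 2) then ‖u a.1‖ else ‖u a.1 + qu‖)
      (by
        refine continuous_pi fun j => ?_
        have hc := hu.comp (continuous_subtype_val (p := fun a => a ∈ K2 S))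
        by_cases hj : j = 0
        · simp only [hj, if_true]
          exact hc.norm
        · simp only [hj, if_false]
          exact (hc.add continuous_const).norm) ε
      (by
        intro a ha b hb hab
        obtain ⟨e1, e2⟩ := hqi a b hab
        have : u a.1 = u b.1 := by
          refine hu1 a.1 b.1 e1 fun m hm => (e2 m).2 ?_
          intro h0
          have := ha m hm
          rw [h0] at this
          simp only [Set.Icc.coe_zero] at this
          linarith
        rw [this])
      (by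
        intro a ha b hb hab
        have g0 := congrFun hab 0
        have g1 := congrFun hab 1
        simp only [if_true, Fin.one_eq_zero_iff, OfNat.ofNat_ne_one, if_false] at g0 g1
        have e : u a.1 = u b.1 := Pool.Agent.W168.LQ.key g0 g1
        have ez : a.1.1 = b.1.1 := by
          rw [hu2 a.1 (hsol a), hu2 b.1 (hsol b), e]
        have ew := hu3 a.1 b.1 (hsol a) (hsol b) e
        rw [hqd]
        refine lt_of_le_of_lt ?_ (max_lt hηε hN)
        rw [BoundedContinuousFunction.dist_le (le_max_of_le_left hη0.le)]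
        intro i
        rw [Phi_apply, Phi_apply]
        rcases Nat.eq_zero_or_pos i with hi | hi
        · rw [hi, crd_zero ez, dist_self]
          exact le_max_of_le_left hη0.le
        · by_cases hiN : i ≤ N
          · obtain ⟨n, rfl⟩ : ∃ n, i = n + 1 := ⟨i - 1, by omega⟩
            have hnN : n ∈ Finset.range N := Finset.mem_range.2 (by omega)
            refine (near_crd (η := η) ?_ (ew n hnN)).trans (le_max_left _ _)
            have r1 := ha n hnN
            have r2 := hb n hnN
            have r3 := (a.1.2.1 n).2.2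
            have r4 := (b.1.2.1 n).2.2
            rw [abs_le]
            constructor <;> linarith
          · exact (far (by omega)).trans (le_max_right _ _))
      O hO hOC
    refine ⟨κ, hκ, V, h1, fun i => Set.subset_univ _, fun x hx => h3 x ?_, h4, h5⟩
    rintro ⟨a, ha, hax⟩
    simp only [Bd, Set.mem_iUnion] at ha
    obtain ⟨n, hn, hle⟩ := ha
    have := hx a hax n (Finset.mem_range.1 hn)
    simp only [Set.mem_ofPred_eq] at hle
    linarith
  -- the pieces in the cylinders
  have hcyl : ∀ n < N, ∃ (κ : Type) (_ : Finite κ) (V : κ → Set (X2 S)), (∀ i, IsOpen (V i)) ∧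
      (∀ i, ∀ x ∈ V i, ∀ a, q a = x → a.1.2.1 n ≠ 1) ∧
      (∀ x, (∀ a, q a = x → a.1.2.1 n ≠ 1) → ∃ i, x ∈ V i) ∧
      (∀ i, ∀ x ∈ V i, ∀ y ∈ V i, dist x y < ε) ∧ ∀ x, Set.ncard {i | x ∈ V i} ≤ 2 ^ 5 := by
    intro n hnN
    obtain ⟨u, hu, hu1, hu2, hu3⟩ := master ((Finset.range N).erase n)
    let C : Set (K2 S) := {a | ∀ m, m ≠ n → a.1.2.1 m = 1}
    have hC : IsCompact C := by
      refine IsClosed.isCompact ?_
      have : C = ⋂ m, ⋂ (_ : m ≠ n), {a : K2 S | a.1.2.1 m = 1} := by
        ext a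
        simp [C]
      rw [this]
      exact isClosed_iInter fun m => isClosed_iInter fun _ =>
        isClosed_eq ((continuous_rad m).comp continuous_subtype_val) continuous_const
    let Bd : Set (K2 S) := {a : K2 S | a.1.2.1 n = 1}
    have hBd : IsCompact Bd := by
      refine IsClosed.isCompact ?_
      exact isClosed_eq ((continuous_rad n).comp continuous_subtype_val) continuous_const
    let O : Set (X2 S) := (q '' Bd)ᶜ
    have hO : IsOpen O := (hBd.image hq).isClosed.isOpen_compl
    have hOC : O ⊆ q '' C := by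
      intro x hx
      obtain ⟨a, rfl⟩ := hqs x
      refine ⟨a, fun m hm => ?_, rfl⟩
      exact (a.2.2 m n hm).resolve_right fun h => hx ⟨a, h, rfl⟩
    have hsol : ∀ a : K2 S, ∀ m ∈ (Finset.range N).erase n, M m • a.1.2.2 m = a.1.1 :=
      fun a m _ => (a.2.1 m).1
    obtain ⟨κ, hκ, V, h1, h2, h3, h4, h5⟩ := piece q hq C hC
      (fun a j => if j = (0 : Fin 5) then ‖u a.1‖ else if j = 1 then ‖u a.1 + qu‖ else
        if j = 2 then (a.1.2.1 n : ℝ) else if j = 3 then (a.1.2.1 n : ℝ) * ‖a.1.2.2 n‖ else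
        (a.1.2.1 n : ℝ) * ‖a.1.2.2 n + qu‖)
      (by
        refine continuous_pi fun j => ?_
        have hc := hu.comp (continuous_subtype_val (p := fun a => a ∈ K2 S))
        by_cases hj : j = 0
        · simp only [hj, if_true]
          exact hc.norm
        · simp only [hj, if_false]
          by_cases hj : j = 1
          · simp only [hj, if_true]
            exact (hc.add continuous_const).norm
          · simp only [hj, if_false]
            by_cases hj : j = 2
            · simp only [hj, if_true]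
              exact crad n
            · simp only [hj, if_false]
              by_cases hj : j = 3
              · simp only [hj, if_true]
                exact (crad n).mul (cang n).norm
              · simp only [hj, if_false]
                exact (crad n).mul ((cang n).add continuous_const).norm) ε
      (by
        intro a ha b hb hab
        obtain ⟨e1, e2⟩ := hqi a b hab
        have hu' : u a.1 = u b.1 := by
          refine hu1 a.1 b.1 e1 fun m hm => (e2 m).2 ?_
          rw [ha m (Finset.ne_of_mem_erase hm)]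
          exact one_ne_zero
        have hr := (e2 n).1
        by_cases h0 : a.1.2.1 n = 0
        · have h0' : b.1.2.1 n = 0 := hr ▸ h0
          funext j
          rw [hu', h0, h0']
          simp only [Set.Icc.coe_zero, zero_mul]
        · rw [hu', hr, (e2 n).2 h0])
      (by
        intro a ha b hb hab
        have g0 := congrFun hab 0
        have g1 := congrFun hab 1
        have g2 := congrFun hab 2
        have g3 := congrFun hab 3
        have g4 := congrFun hab 4
        simp only [if_true, if_false, show (1 : Fin 5) ≠ 0 by decide, show (2 : Fin 5) ≠ 0 by decide,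
          show (2 : Fin 5) ≠ 1 by decide, show (3 : Fin 5) ≠ 0 by decide,
          show (3 : Fin 5) ≠ 1 by decide, show (3 : Fin 5) ≠ 2 by decide,
          show (4 : Fin 5) ≠ 0 by decide, show (4 : Fin 5) ≠ 1 by decide,
          show (4 : Fin 5) ≠ 2 by decide, show (4 : Fin 5) ≠ 3 by decide] at g0 g1 g2 g3 g4
        have e : u a.1 = u b.1 := Pool.Agent.W168.LQ.key g0 g1
        have ez : a.1.1 = b.1.1 := by
          rw [hu2 a.1 (hsol a), hu2 b.1 (hsol b), e]
        have ew := hu3 a.1 b.1 (hsol a) (hsol b) e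
        have eco : co (a.1.2.1 n : ℝ) (a.1.2.2 n) = co (b.1.2.1 n : ℝ) (b.1.2.2 n) := by
          unfold co
          exact Prod.ext g2 (Prod.ext g3 g4)
        rw [hqd]
        refine lt_of_le_of_lt ?_ hN
        rw [BoundedContinuousFunction.dist_le (by positivity)]
        intro i
        rw [Phi_apply, Phi_apply]
        have hp : (0 : ℝ) ≤ (1 / 2 : ℝ) ^ N := by positivity
        rcases Nat.eq_zero_or_pos i with hi | hi
        · rw [hi, crd_zero ez, dist_self]
          exact hp
        · by_cases hiN : i ≤ N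
          · obtain ⟨m, rfl⟩ : ∃ m, i = m + 1 := ⟨i - 1, by omega⟩
            by_cases hmn : m = n
            · rw [hmn, crd_succ eco, dist_self]
              exact hp
            · have hm : m ∈ (Finset.range N).erase n :=
                Finset.mem_erase.2 ⟨hmn, Finset.mem_range.2 (by omega)⟩
              rw [crd_succ (a := a.1) (b := b.1) (by rw [ha m hmn, hb m hmn, ew m hm]), dist_self]
              exact hp
          · exact far (by omega))
      O hO hOC
    refine ⟨κ, hκ, V, h1, fun i x hx a hax h => h2 i hx ⟨a, h, hax⟩, fun x hx => h3 x ?_, h4, h5⟩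
    rintro ⟨a, ha, hax⟩
    exact hx a hax ha
  choose! κ hκ V hVo hVs hVc hVd hVn using hcyl
  -- the cover
  obtain ⟨x0⟩ : Nonempty (X2 S) :=
    ⟨pt2 S (Pool.Agent.W381.LQ.ph 0 0 |> fun a => (a.1, fun _ => 1, a.2.2))
      ⟨fun n => ⟨Pool.Agent.W381.LQ.nsmul_div (M n) (Pool.Agent.W381.LQ.M_pos n) 0,
        fun _ => rfl⟩, fun _ _ _ => Or.inl rfl⟩⟩
  have hι : Nonempty ι := by
    have : x0 ∈ ⋃ i, U i := by rw [hcov]; exact Set.mem_univ _
    obtain ⟨i, _⟩ := Set.mem_iUnion.1 this
    exact ⟨i⟩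
  have hsub : ∀ W : Set (X2 S), (∀ x ∈ W, ∀ y ∈ W, dist x y < ε) → ∃ i, W ⊆ U i := by
    intro W hW
    rcases W.eq_empty_or_nonempty with rfl | ⟨x, hx⟩
    · exact ⟨hι.some, Set.empty_subset _⟩
    · obtain ⟨i, hi⟩ := hleb x (Set.mem_univ x)
      exact ⟨i, fun y hy => hi (Metric.mem_ball.2 (hW y hy x hx))⟩
  have hfin : ∀ n : Fin N, Finite (κ n) := fun n => hκ n n.2
  let VV : κ0 ⊕ (Σ n : Fin N, κ n) → Set (X2 S) := Sum.elim V0 fun p => V p.1 p.2
  refine ⟨κ0 ⊕ (Σ n : Fin N, κ n), inferInstance, VV, ?_, ?_, ?_, ?_⟩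
  · rintro (i | ⟨n, i⟩)
    · exact hV0o i
    · exact hVo n n.2 i
  · rw [Set.eq_univ_iff_forall]
    intro x
    rw [Set.mem_iUnion]
    by_cases h : ∀ a, q a = x → ∀ n < N, 1 - η < (a.1.2.1 n : ℝ)
    · obtain ⟨i, hi⟩ := hV0c x h
      exact ⟨Sum.inl i, hi⟩
    · push Not at h
      obtain ⟨a, hax, n, hn, hle⟩ := h
      have : ∀ b, q b = x → b.1.2.1 n ≠ 1 := by
        intro b hb h1
        have := ((hqi a b (hax.trans hb.symm)).2 n).1
        rw [this, h1] at hle
        simp only [Set.Icc.coe_one] at hle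
        linarith
      obtain ⟨i, hi⟩ := hVc n hn x this
      exact ⟨Sum.inr ⟨⟨n, hn⟩, i⟩, hi⟩
  · rintro (i | ⟨n, i⟩)
    · exact hsub _ (hV0d i)
    · exact hsub _ (hVd n n.2 i)
  · intro x
    have hsplit : {k | x ∈ VV k} = Sum.inl '' {i | x ∈ V0 i} ∪
        Sum.inr '' {p : Σ n : Fin N, κ n | x ∈ V p.1 p.2} := by
      ext k
      rcases k with i | p
      · simp [VV]
      · simp [VV]
    rw [hsplit]
    refine (Set.ncard_union_le _ _).trans ?_
    have b1 : Set.ncard (Sum.inl '' {i | x ∈ V0 i} : Set (κ0 ⊕ (Σ n : Fin N, κ n))) ≤ 4 :=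
      (Set.ncard_image_le (Set.toFinite _)).trans (hV0n x)
    have b2 : Set.ncard (Sum.inr '' {p : Σ n : Fin N, κ n | x ∈ V p.1 p.2} :
        Set (κ0 ⊕ (Σ n : Fin N, κ n))) ≤ 32 := by
      refine (Set.ncard_image_le (Set.toFinite _)).trans ?_
      by_cases hne : ∃ p : Σ n : Fin N, κ n, x ∈ V p.1 p.2
      · obtain ⟨⟨n, i⟩, hi⟩ := hne
        have hsame : {p : Σ n : Fin N, κ n | x ∈ V p.1 p.2} ⊆
            (fun i : κ n => (⟨n, i⟩ : Σ n : Fin N, κ n)) '' {i | x ∈ V n i} := by
          rintro ⟨m, j⟩ hj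
          obtain ⟨a, hax⟩ := hqs x
          have h1 := hVs n n.2 i x hi a hax
          have h2 := hVs m m.2 j x hj a hax
          have hnm : n = m := by
            by_contra hc
            have hc' : (n : ℕ) ≠ (m : ℕ) := fun h => hc (Fin.ext h)
            rcases a.2.2 n m hc' with h | h
            · exact h1 h
            · exact h2 h
          subst hnm
          exact ⟨j, hj, rfl⟩
        refine (Set.ncard_le_ncard hsame (Set.toFinite _)).trans ?_
        exact (Set.ncard_image_le (Set.toFinite _)).trans (hVn n n.2 x)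
      · have : {p : Σ n : Fin N, κ n | x ∈ V p.1 p.2} = ∅ := by
          ext p
          simp only [Set.mem_ofPred_eq, Set.mem_empty_iff_false, iff_false]
          exact fun h => hne ⟨p, h⟩
        rw [this]
        simp
    omega

end Pool.Agent.U64.FD
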