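import Pool.Agent.U64.FD.Conn
import Pool.Agent.U64.FD.Dim
import Pool.Agent.W361.LQ.Fin
import Pool.Agent.W641.LQ.APX
import Pool.Agent.W19.LQ.FP
import Pool.Agent.W923.LQ.Val
import Pool.Agent.W89.LQ.Lt
import Pool.Agent.W918.LQ.CX
import Pool.Agent.W565.LQ.Near
import Pool.Agent.W311.LQ.Init
import Pool.Agent.W924.LQ.BACK
import Pool.Agent.W605.LQ.Forth
import Pool.Agent.W436.LQ.PI
import Pool.Agent.W162.LQ.Tab
import Pool.Agent.W952.LP.Low

/-!
# A finite-dimensional connected compact space with a low₂ presentation and no computable one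
-/

set_option autoImplicit false

namespace Pool.Agent.U64.FD

open Pool.Agent.Helper227 Pool.Agent.H685R3 Pool.Agent.W361.LQ
open Pool.Agent.W952.LP (zero ratVal DimLE)

/-- The space `X` has a presentation computable in the sense of the class `𝒞` of functions: a
complete metric compatible with the topology, a dense sequence `x`, and a function `f` in `𝒞` such
that `f (i, j, n)` is a code of a rational number within `2 ^ (-n)` of the distance of `x i` and
`x j`. -/
def PresentedBy (𝒞 : (ℕ → ℕ) → Prop) (X : Type) [t : TopologicalSpace X] : Prop :=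
  ∃ m : MetricSpace X, m.toPseudoMetricSpace.toUniformSpace.toTopologicalSpace = t ∧
    @CompleteSpace X m.toPseudoMetricSpace.toUniformSpace ∧
    ∃ x : ℕ → X, DenseRange x ∧ ∃ f : ℕ → ℕ, 𝒞 f ∧
      ∀ i j n : ℕ, |m.dist (x i) (x j) - ratVal (f (Nat.pair i (Nat.pair j n)))| ≤ (1 / 2 : ℝ) ^ n

/-- the numerator of a dyadic approximation -/
def rn (u k : ℕ) : ℕ := (2 ^ (k + 1) * u.unpair.1 + (u.unpair.2 + 1)) / (2 * (u.unpair.2 + 1))

theorem rn_spec (u k : ℕ) : |(rn u k : ℝ) / 2 ^ k - ratVal u| ≤ (1 / 2 : ℝ) ^ (k + 1) := by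
  unfold rn ratVal
  obtain ⟨p, hp⟩ : ∃ p : ℕ, p = u.unpair.1 := ⟨_, rfl⟩
  obtain ⟨r, hr⟩ : ∃ r : ℕ, r = u.unpair.2 + 1 := ⟨_, rfl⟩
  have hr0 : 0 < r := by omega
  have hr1 : ((u.unpair.2 : ℕ) : ℝ) + 1 = r := by rw [hr]; push_cast; ring
  rw [← hp, ← hr, hr1]
  have h1 := Nat.div_add_mod (2 ^ (k + 1) * p + r) (2 * r)
  have h2 := Nat.mod_lt (2 ^ (k + 1) * p + r) (show 0 < 2 * r by omega)
  obtain ⟨s, hs⟩ : ∃ s : ℕ, s = (2 ^ (k + 1) * p + r) / (2 * r) := ⟨_, rfl⟩
  obtain ⟨w, hw⟩ : ∃ w : ℕ, w = (2 ^ (k + 1) * p + r) % (2 * r) := ⟨_, rfl⟩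
  rw [← hs, ← hw] at h1
  rw [← hw] at h2
  rw [← hs]
  have h1' : (2 * (r : ℝ)) * s + w = 2 ^ (k + 1) * p + r := by exact_mod_cast h1
  have h2' : (w : ℝ) < 2 * r := by exact_mod_cast h2
  have h3' : (0 : ℝ) ≤ w := Nat.cast_nonneg w
  have hr' : (0 : ℝ) < r := by exact_mod_cast hr0
  have hk : (0 : ℝ) < 2 ^ k := by positivity
  have e : (s : ℝ) / 2 ^ k - p / r = (r - w) / (2 * r * 2 ^ k) := by
    rw [div_sub_div _ _ hk.ne' hr'.ne', div_eq_div_iff (by positivity) (by positivity)]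
    have : (2 * (r : ℝ)) * s = 2 ^ (k + 1) * p + r - w := by linarith
    rw [pow_succ] at this
    have h5 : (r : ℝ) * s = 2 ^ k * p + (r - w) / 2 := by linarith
    have h6 : (s : ℝ) * r = 2 ^ k * p + (r - w) / 2 := by linarith
    rw [h6]
    ring
  rw [e, abs_div, abs_of_pos (show (0 : ℝ) < 2 * r * 2 ^ k by positivity), div_le_iff₀ (by positivity)]
  have h7 : |(r : ℝ) - w| ≤ r := by
    rw [abs_le]
    constructor <;> linarith
  refine h7.trans (le_of_eq ?_)
  rw [pow_succ, one_div, inv_pow]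
  field_simp

theorem p_rn : Primrec₂ rn := by
  unfold rn
  have hp : Primrec₂ fun a b : ℕ => a ^ b := Primrec₂.unpaired'.1 Nat.Primrec.pow
  have h1 : Primrec fun x : ℕ × ℕ => x.1.unpair.1 := Primrec.fst.comp (Primrec.unpair.comp Primrec.fst)
  have h2 : Primrec fun x : ℕ × ℕ => x.1.unpair.2 := Primrec.snd.comp (Primrec.unpair.comp Primrec.fst)
  have h3 : Primrec fun x : ℕ × ℕ => 2 ^ (x.2 + 1) :=
    hp.comp (Primrec.const 2) (Primrec.succ.comp Primrec.snd)
  have h4 : Primrec fun x : ℕ × ℕ => x.1.unpair.2 + 1 := Primrec.succ.comp h2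
  exact Primrec.nat_div.comp (Primrec.nat_add.comp (Primrec.nat_mul.comp h3 h1) h4)
    (Primrec.nat_mul.comp (Primrec.const 2) h4)

/-- From rational to dyadic approximations. -/
theorem dyadic {d : ℕ → ℕ → ℝ} {f : ℕ → ℕ} (hf : Computable f)
    (h : ∀ i j n : ℕ, |d i j - ratVal (f (Nat.pair i (Nat.pair j n)))| ≤ (1 / 2 : ℝ) ^ n) :
    ∃ g : ℕ → ℕ, Computable g ∧
      ∀ i j k : ℕ, |(g (Nat.pair i (Nat.pair j k)) : ℝ) / 2 ^ k - d i j| ≤ 1 / 2 ^ k := by
  refine ⟨fun m => rn (f (Nat.pair m.unpair.1 (Nat.pair m.unpair.2.unpair.1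
    (m.unpair.2.unpair.2 + 1)))) m.unpair.2.unpair.2, ?_, fun i j k => ?_⟩
  · have c1 : Primrec fun m : ℕ => m.unpair.1 := Primrec.fst.comp Primrec.unpair
    have c2 : Primrec fun m : ℕ => m.unpair.2.unpair.1 :=
      Primrec.fst.comp (Primrec.unpair.comp (Primrec.snd.comp Primrec.unpair))
    have c3 : Primrec fun m : ℕ => m.unpair.2.unpair.2 :=
      Primrec.snd.comp (Primrec.unpair.comp (Primrec.snd.comp Primrec.unpair))
    have c4 : Primrec fun m : ℕ => Nat.pair m.unpair.1 (Nat.pair m.unpair.2.unpair.1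
        (m.unpair.2.unpair.2 + 1)) :=
      Primrec₂.natPair.comp c1 (Primrec₂.natPair.comp c2 (Primrec.succ.comp c3))
    exact p_rn.to_comp.comp (hf.comp c4.to_comp) c3.to_comp
  · simp only [Nat.unpair_pair]
    have h1 := h i j (k + 1)
    have h2 := rn_spec (f (Nat.pair i (Nat.pair j (k + 1)))) k
    have e : (rn (f (Nat.pair i (Nat.pair j (k + 1)))) k : ℝ) / 2 ^ k - d i j =
        ((rn (f (Nat.pair i (Nat.pair j (k + 1)))) k : ℝ) / 2 ^ k -
          ratVal (f (Nat.pair i (Nat.pair j (k + 1))))) -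
        (d i j - ratVal (f (Nat.pair i (Nat.pair j (k + 1))))) := by ring
    rw [e]
    refine (abs_sub _ _).trans ?_
    have h3 : (1 / 2 : ℝ) ^ (k + 1) + (1 / 2 : ℝ) ^ (k + 1) = 1 / 2 ^ k := by
      rw [pow_succ, one_div, inv_pow]
      ring
    linarith

/-- The degree of the construction. -/
theorem deg : ∃ D : ℕ → Bool, TLe zero D ∧
    ¬ TLe (jump D) (jump zero) ∧ TLe (jump (jump D)) (jump (jump zero)) := by
  obtain ⟨Z, hZ1, hZ2, hZ3⟩ := Pool.Agent.W952.LP.low (jump zero)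
  obtain ⟨D, hD1, hD2, hD3⟩ := Pool.Agent.W952.LP.inv zero Z hZ1
  exact ⟨D, hD1, fun h => hZ2 (TuringReducible.trans hD3 h),
    TuringReducible.trans hD2.jump hZ3⟩

/-- For every degree `D` that is not low: a finite-dimensional connected compact space with a
`D`-computable presentation and without computable presentation. -/
theorem core (D : ℕ → Bool) (hD : ¬ TLe (jump D) (jump zero)) :
    ∃ (X : Type) (_ : TopologicalSpace X), CompactSpace X ∧ ConnectedSpace X ∧ DimLE X 35 ∧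
      PresentedBy (fun f => TuringReducible (fun n => Part.some (f n)) (chi D)) X ∧
      ∀ (Y : Type) [TopologicalSpace Y], Nonempty (X ≃ₜ Y) → ¬ PresentedBy Computable Y := by
  obtain ⟨T, hT1, hT2⟩ := Pool.Agent.W162.LQTab.main D
  let S : Set ℕ := {n | jump D n = false}
  have hS : ∀ n, n ∉ S ↔ ∃ y, T n y = true := by
    intro n
    rw [← hT2 n]
    simp [S]
  have hcX : CompactSpace (X2 S) := isCompact_iff_compactSpace.1 (isCompact_X2 S)
  refine ⟨X2 S, inferInstance, hcX, isConnected_iff_connectedSpace.1 (isConnected_X2 S), dimLE S,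
    ?_, ?_⟩
  · refine ⟨inferInstance, rfl, inferInstance, fun k => pt2 S (pm (sq2 T k)) (mem_K2 S T hS k), ?_,
      fun m => Nat.pair (F (sq2 T m.unpair.1) (sq2 T m.unpair.2.unpair.1) m.unpair.2.unpair.2)
        (2 ^ m.unpair.2.unpair.2 - 1), ?_, fun i j k => ?_⟩
    · rw [Metric.denseRange_iff]
      rintro ⟨_, a, ha, rfl⟩ r hr
      obtain ⟨k, hk⟩ := dense2 S T hS a ha r hr
      exact ⟨k, hk⟩
    · refine comp' (G := fun c c' k => Nat.pair (F c c' k) (2 ^ k - 1)) ?_ (nm2 D T hT1)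
      have hp : Primrec₂ fun a b : ℕ => a ^ b := Primrec₂.unpaired'.1 Nat.Primrec.pow
      have h1 : Primrec fun x : Cd × Cd × ℕ => 2 ^ x.2.2 - 1 :=
        Primrec.nat_sub.comp (hp.comp (Primrec.const 2) (Primrec.snd.comp Primrec.snd))
          (Primrec.const 1)
      exact Primrec₂.natPair.comp Pool.Agent.W19.LQ.main h1
    · have h1 := Pool.Agent.W641.LQ.apx Pool.Agent.W923.LQ.Val.main (sq2 T i) (sq2 T j) k
      have h2 : ratVal (Nat.pair (F (sq2 T i) (sq2 T j) k) (2 ^ k - 1)) =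
          (F (sq2 T i) (sq2 T j) k : ℝ) / 2 ^ k := by
        unfold ratVal
        rw [Nat.unpair_pair]
        simp only
        congr 1
        rw [Nat.cast_sub Nat.one_le_two_pow]
        push_cast
        ring
      simp only [Nat.unpair_pair]
      rw [h2, abs_sub_comm, one_div, inv_pow, ← one_div]
      exact h1
  · rintro Y tY ⟨φ⟩ ⟨mY, hmt, hcY, y, hy, f0, hf0, hf1⟩
    subst hmt
    have hcQ : CompactSpace Y := φ.compactSpace
    obtain ⟨h, hh1, hh2⟩ := dyadic hf0 hf1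
    obtain ⟨f, hf1, hf2⟩ := div2 S
    let f' : C(Y, UnitAddCircle) := ⟨fun q => f (φ.symm q), f.continuous.comp φ.symm.continuous⟩
    obtain ⟨C, d, hC⟩ := Pool.Agent.W311.LQ.main Y y hy f'
    obtain ⟨hL, hG⟩ := Pool.Agent.W89.LQ.Lt.main (fun i j => dist (y i) (y j)) h hh1 hh2
    have key : ∀ n : ℕ, jump D n = false ↔ ∃ (E : List (ℕ × ℕ)) (e : ℕ),
        Cond (LtY y) (GtY y) C d (M n) E e := by
      intro n
      constructor
      · intro hn
        obtain ⟨g, hg⟩ := hf2 n hn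
        let g' : C(Y, UnitAddCircle) :=
          ⟨fun q => g (φ.symm q), g.continuous.comp φ.symm.continuous⟩
        exact Pool.Agent.W605.LQ.Forth.main Pool.Agent.W565.LQ.Near.main Y y hy f' g' C d (M n)
          (M_pos n) hC fun q => hg (φ.symm q)
      · rintro ⟨E, e, hE⟩
        obtain ⟨g', hg'⟩ := Pool.Agent.W924.LQ.BACK.main Pool.Agent.W565.LQ.Near.main Y y hy f' C d
          (M n) (M_pos n) hC E e hE
        let g : C(X2 S, UnitAddCircle) := ⟨fun x => g' (φ x), g'.continuous.comp φ.continuous⟩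
        refine non2 S f g n hf1 fun x => ?_
        have h3 := hg' (φ x)
        simp only [f', ContinuousMap.coe_mk, Homeomorph.symm_apply_apply] at h3
        exact h3
    refine Pool.Agent.W436.LQ.main D hD ?_
    exact (Pool.Agent.W918.LQ.CX.main (LtY y) (GtY y) hL hG C d).of_eq fun n => (key n).symm

end Pool.Agent.U64.FD
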